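import Pool.Agent.W95.BK.Stm

set_option autoImplicit false

open Polynomial Topology Filter

namespace Pool.Agent.W138.BK

open Pool.Agent.W95.BK

universe u

lemma natDeg_ev {K : Type u} [Field K] (f : RMap K) :
    ∃ c : K, ∀ b : K, b ≠ c → (f.P - C b * f.Q).natDegree = f.d := by
  have hP : f.P.natDegree ≤ f.d := f.deg_eq ▸ le_max_left _ _
  have hQ : f.Q.natDegree ≤ f.d := f.deg_eq ▸ le_max_right _ _
  have hle : ∀ b : K, (f.P - C b * f.Q).natDegree ≤ f.d := by
    intro b
    refine (natDegree_sub_le _ _).trans (max_le hP ?_)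
    exact (natDegree_C_mul_le _ _).trans hQ
  have hd := f.pos
  have hne : ∀ b : K, f.P.coeff f.d - b * f.Q.coeff f.d ≠ 0 →
      (f.P - C b * f.Q).natDegree = f.d := by
    intro b hb
    refine le_antisymm (hle b) (le_natDegree_of_ne_zero ?_)
    rw [coeff_sub, coeff_C_mul]
    exact hb
  by_cases hq : f.Q.coeff f.d = 0
  · refine ⟨0, fun b _ => hne b ?_⟩
    rw [hq, mul_zero, sub_zero]
    intro hp
    have h1 : f.P.natDegree < f.d := by
      refine lt_of_le_of_ne hP fun h => ?_
      rw [← h] at hp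
      have : f.P = 0 := leadingCoeff_eq_zero.1 hp
      rw [this] at h
      simp at h
      omega
    have h2 : f.Q.natDegree < f.d := by
      refine lt_of_le_of_ne hQ fun h => ?_
      rw [← h] at hq
      have : f.Q = 0 := leadingCoeff_eq_zero.1 hq
      rw [this] at h
      simp at h
      omega
    have := f.deg_eq
    omega
  · refine ⟨f.P.coeff f.d / f.Q.coeff f.d, fun b hb => hne b fun h => hb ?_⟩
    rw [eq_div_iff hq]
    exact (sub_eq_zero.1 h).symm

open Classical in
lemma cnt_comp {K : Type u} [NontriviallyNormedField K] [IsUltrametricDist K]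
    [IsAlgClosed K] (f g : RMap K) (b : K)
    (hn : (f.P - C b * f.Q).natDegree = f.d)
    (hfib : fib (f.comp g) b = (f.P - C b * f.Q).roots.bind (fun z => fib g z))
    (hact : ∀ (b : K) (w : P1B K), w ∈ fib g b → g.act w = ((cl b : BA K) : P1B K))
    (U U₁ : Set (P1B K)) (e : ℕ)
    (he : ∀ z : K, ((cl z : BA K) : P1B K) ∈ U₁ → cnt g U z = e) :
    cnt (f.comp g) (U ∩ g.act ⁻¹' U₁) b = cnt f U₁ b * e := by
  have hkey : ∀ z : K, ((fib g z).filter (fun w => w ∈ U ∩ g.act ⁻¹' U₁)).card =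
      if ((cl z : BA K) : P1B K) ∈ U₁ then e else 0 := by
    intro z
    split_ifs with hz
    · rw [← he z hz]
      unfold cnt
      congr 1
      refine Multiset.filter_congr fun w hw => ?_
      constructor
      · exact fun h => h.1
      · intro h
        refine ⟨h, ?_⟩
        show g.act w ∈ U₁
        rw [hact z w hw]
        exact hz
    · rw [Multiset.card_eq_zero, Multiset.filter_eq_nil]
      rintro w hw ⟨_, h2⟩
      apply hz
      have h3 : g.act w ∈ U₁ := h2
      rwa [hact z w hw] at h3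
  have h1 : cnt (f.comp g) (U ∩ g.act ⁻¹' U₁) b =
      ((f.P - C b * f.Q).roots.map
        (fun z => if ((cl z : BA K) : P1B K) ∈ U₁ then e else 0)).sum := by
    unfold cnt
    rw [hfib, Multiset.filter_bind, Multiset.card_bind]
    congr 1
    refine Multiset.map_congr rfl fun z _ => ?_
    rw [Function.comp_apply]
    convert hkey z
  have h2 : cnt f U₁ b = ((f.P - C b * f.Q).roots.map
      (fun z => if ((cl z : BA K) : P1B K) ∈ U₁ then 1 else 0)).sum := by
    unfold cnt fib
    rw [hn, Nat.sub_self, Multiset.replicate_zero, add_zero, Multiset.filter_map,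
      Multiset.card_map]
    generalize (f.P - C b * f.Q).roots = s
    induction s using Multiset.induction_on with
    | empty => simp
    | cons a s ih =>
      rw [Multiset.filter_cons, Multiset.card_add, ih, Multiset.map_cons, Multiset.sum_cons]
      congr 1
      simp only [Function.comp]
      split_ifs <;> simp
  rw [h1, h2, ← Multiset.sum_map_mul_right]
  congr 1
  refine Multiset.map_congr rfl fun z _ => ?_
  split_ifs <;> simp

theorem chain : S_LDEX.{u} → S_LDU.{u} → S_FIBC.{u} → S_AVOID.{u} → S_ACT.{u} → S_FUNC.{u} →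
    S_ACTC.{u} → S_DENSE.{u} → S_CHAIN.{u} := by
  intro hLDEX hLDU hFIBC hAVOID hACT hFUNC hACTC _ K _ _ _ f g x hx
  obtain ⟨y, hy, hgy, _, _⟩ := (hACT K g).1 x hx
  obtain ⟨z, hz, hfz, _, _⟩ := (hACT K f).1 y hy
  obtain ⟨e, _, hLe, he⟩ := hLDEX K g x hx
  obtain ⟨m, _, hLm, hm⟩ := hLDEX K f y hy
  obtain ⟨M, _, hLM, hM⟩ := hLDEX K (f.comp g) x hx
  rw [hgy, he, hm, hM]
  refine hLDU K (f.comp g) (x : P1B K) M (m * e) hLM ?_
  intro U₀ hU₀
  obtain ⟨U, hU, hUU₀, hV⟩ := hLe U₀ hU₀
  rw [hgy] at hV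
  obtain ⟨V, hVn, hVe⟩ := hV
  obtain ⟨U₁, hU₁, hU₁V, hW⟩ := hLm V hVn
  refine ⟨U ∩ g.act ⁻¹' U₁, ?_, fun w hw => hUU₀ hw.1, ?_⟩
  · refine inter_mem hU ?_
    refine (hACTC K g).continuousAt ?_
    rw [hgy]
    exact hU₁
  rw [(hFUNC K).1 f g, hgy]
  obtain ⟨c, hc⟩ := natDeg_ev f
  have hb : ∀ᶠ b in toward (f.act (y : P1B K)), b ≠ c := by
    rw [hfz]
    exact (hAVOID K z hz).2 c
  filter_upwards [hW, hb] with b h1 h2
  rw [cnt_comp f g b (hc b h2) (hFIBC K f g b (hc b h2)) (hACT K g).2.2.2.1 U U₁ e, h1]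
  intro t ht
  exact hVe (hU₁V ht)

end Pool.Agent.W138.BK

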